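import Mathlib
import Pool.Agent.Lib.MP_b399ad_co.Cx.Extract

/-!
# The graph of two double rays joined by an edge is not edge-ubiquitous
-/

set_option autoImplicit false

namespace Pool.Agent.Results.MP_b399ad_co.NotEdgeUbiquitous

universe u v w

/-- `H` is obtained from two vertex-disjoint double rays `r`, `s` by adding one edge, between a
vertex of `r` and a vertex of `s`. -/
def TwoDoubleRaysJoined {W : Type w} (H : SimpleGraph W) : Prop :=
  ∃ (r s : ℤ → W) (i j : ℤ), Function.Injective r ∧ Function.Injective s ∧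
    (∀ m n, r m ≠ s n) ∧ (∀ x, x ∈ Set.range r ∨ x ∈ Set.range s) ∧
    ∀ e : Sym2 W, e ∈ H.edgeSet ↔
      (∃ n, e = s(r n, r (n + 1))) ∨ (∃ n, e = s(s n, s (n + 1))) ∨ e = s(r i, s j)

/-- a copy of `H` in `G` is a subgraph of `G` isomorphic to `H` -/
def IsCopy {W : Type w} {V : Type v} (H : SimpleGraph W) {G : SimpleGraph V} (K : G.Subgraph) :
    Prop :=
  Nonempty (H ≃g K.coe)

/-- `G` contains a family of pairwise edge-disjoint copies of `H` indexed by `ι` -/
def EdgeDisjointCopies {W : Type w} {V : Type v} (H : SimpleGraph W) (G : SimpleGraph V)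
    (ι : Type u) : Prop :=
  ∃ K : ι → G.Subgraph, (∀ i, IsCopy H (K i)) ∧
    ∀ i j, i ≠ j → Disjoint (K i).edgeSet (K j).edgeSet

/-- `H` is edge-ubiquitous: every graph with arbitrarily many edge-disjoint copies of `H` has
infinitely many edge-disjoint copies of `H` -/
def EdgeUbiquitous {W : Type w} (H : SimpleGraph W) : Prop :=
  ∀ (V : Type v) (G : SimpleGraph V),
    (∀ n : ℕ, EdgeDisjointCopies H G (Fin n)) → EdgeDisjointCopies H G ℕ

theorem to_copies {W : Type w} {V : Type v} {H : SimpleGraph W} {G : SimpleGraph V} {ι : Type u}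
    (f : ι → W → V) (hf : ∀ i, Function.Injective (f i))
    (hadj : ∀ i x y, H.Adj x y → G.Adj (f i x) (f i y))
    (hdis : ∀ i j, i ≠ j → ∀ a b c d, H.Adj a b → H.Adj c d →
      s(f i a, f i b) ≠ s(f j c, f j d)) : EdgeDisjointCopies H G ι := by
  classical
  refine ⟨fun i => SimpleGraph.Copy.toSubgraph
    (⟨⟨f i, fun {x y} h => hadj i x y h⟩, hf i⟩ : SimpleGraph.Copy H G),
    fun i => ⟨SimpleGraph.Copy.isoToSubgraph _⟩, ?_⟩
  intro i j hij
  rw [Set.disjoint_left]
  intro e he1 he2
  induction e using Sym2.ind with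
  | _ x y =>
    rw [SimpleGraph.Subgraph.mem_edgeSet] at he1 he2
    obtain ⟨a, b, hab, ha, hb⟩ := he1
    obtain ⟨c, d, hcd, hc, hd⟩ := he2
    refine hdis i j hij a b c d hab hcd ?_
    change f i a = x at ha
    change f i b = y at hb
    change f j c = x at hc
    change f j d = y at hd
    rw [ha, hb, hc, hd]

theorem of_copies {W : Type w} {V : Type v} {H : SimpleGraph W} {G : SimpleGraph V} {ι : Type u}
    (h : EdgeDisjointCopies H G ι) :
    ∃ f : ι → W → V, (∀ i, Function.Injective (f i)) ∧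
      (∀ i x y, H.Adj x y → G.Adj (f i x) (f i y)) ∧
      ∀ i j, i ≠ j → ∀ a b c d, H.Adj a b → H.Adj c d →
        s(f i a, f i b) ≠ s(f j c, f j d) := by
  obtain ⟨K, hK, hdis⟩ := h
  have φ := fun i => Classical.choice (hK i)
  have key : ∀ i x y, H.Adj x y → (K i).Adj (φ i x : V) (φ i y : V) := by
    intro i x y hxy
    have h1 := (φ i).map_rel_iff.mpr hxy
    exact h1
  refine ⟨fun i x => (φ i x : V), ?_, ?_, ?_⟩
  · intro i x y hxy
    exact (φ i).injective (Subtype.ext hxy)
  · intro i x y hxy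
    exact (K i).adj_sub (key i x y hxy)
  · intro i j hij a b c d hab hcd heq
    have h1 : s((φ i a : V), (φ i b : V)) ∈ (K i).edgeSet := key i a b hab
    have h2 : s((φ j c : V), (φ j d : V)) ∈ (K j).edgeSet := key j c d hcd
    have heq' : s((φ i a : V), (φ i b : V)) = s((φ j c : V), (φ j d : V)) := heq
    rw [← heq'] at h2
    exact Set.disjoint_left.mp (hdis i j hij) h1 h2

/-- every such graph is isomorphic to the standard one -/
theorem iso_HH {W : Type w} {H : SimpleGraph W} (hH : TwoDoubleRaysJoined H) :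
    Nonempty (EdgeUbiq.HH ≃g H) := by
  obtain ⟨r, s, i, j, hr, hs, hrs, hsur, hedge⟩ := hH
  let g : Bool × ℤ → W := fun x => if x.1 then s (j + x.2) else r (i + x.2)
  have g0 : ∀ t, g (false, t) = r (i + t) := fun t => by simp [g]
  have g1 : ∀ t, g (true, t) = s (j + t) := fun t => by simp [g]
  have ginj : Function.Injective g := by
    rintro ⟨b, t⟩ ⟨b', t'⟩ h
    cases b <;> cases b' <;> simp only [g0, g1] at h
    · have := hr h
      rw [Prod.mk.injEq]
      exact ⟨rfl, by omega⟩
    · exact absurd h (hrs _ _)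
    · exact absurd h.symm (hrs _ _)
    · have := hs h
      rw [Prod.mk.injEq]
      exact ⟨rfl, by omega⟩
  have gsur : Function.Surjective g := by
    intro x
    rcases hsur x with ⟨n, hn⟩ | ⟨n, hn⟩
    · exact ⟨(false, n - i), by rw [g0, ← hn]; congr 1; ring⟩
    · exact ⟨(true, n - j), by rw [g1, ← hn]; congr 1; ring⟩
  refine ⟨⟨Equiv.ofBijective g ⟨ginj, gsur⟩, ?_⟩⟩
  intro x y
  change H.Adj (g x) (g y) ↔ EdgeUbiq.HH.Adj x y
  rw [← SimpleGraph.mem_edgeSet, hedge]
  constructor
  · rintro (⟨n, hn⟩ | ⟨n, hn⟩ | hn)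
    · have e1 : r n = g (false, n - i) := by rw [g0]; congr 1; ring
      have e2 : r (n + 1) = g (false, (n - i) + 1) := by rw [g0]; congr 1; ring
      rw [e1, e2, Sym2.eq_iff] at hn
      rcases hn with ⟨h1, h2⟩ | ⟨h1, h2⟩
      · rw [ginj h1, ginj h2]
        exact EdgeUbiq.adj_succ false _
      · rw [ginj h1, ginj h2]
        exact (EdgeUbiq.adj_succ false _).symm
    · have e1 : s n = g (true, n - j) := by rw [g1]; congr 1; ring
      have e2 : s (n + 1) = g (true, (n - j) + 1) := by rw [g1]; congr 1; ring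
      rw [e1, e2, Sym2.eq_iff] at hn
      rcases hn with ⟨h1, h2⟩ | ⟨h1, h2⟩
      · rw [ginj h1, ginj h2]
        exact EdgeUbiq.adj_succ true _
      · rw [ginj h1, ginj h2]
        exact (EdgeUbiq.adj_succ true _).symm
    · have e1 : r i = g (false, 0) := by rw [g0]; congr 1; ring
      have e2 : s j = g (true, 0) := by rw [g1]; congr 1; ring
      rw [e1, e2, Sym2.eq_iff] at hn
      rcases hn with ⟨h1, h2⟩ | ⟨h1, h2⟩
      · rw [ginj h1, ginj h2]
        exact EdgeUbiq.adj_centre false true (by simp)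
      · rw [ginj h1, ginj h2]
        exact (EdgeUbiq.adj_centre false true (by simp)).symm
  · intro h
    have key : ∀ x y : Bool × ℤ,
        ((x.1 = y.1 ∧ x.2 + 1 = y.2) ∨ (x.1 ≠ y.1 ∧ x.2 = 0 ∧ y.2 = 0)) →
        (∃ n, s(g x, g y) = s(r n, r (n + 1))) ∨ (∃ n, s(g x, g y) = s(s n, s (n + 1))) ∨
          s(g x, g y) = s(r i, s j) := by
      rintro ⟨b, t⟩ ⟨b', t'⟩ (⟨h1, h2⟩ | ⟨h1, h2, h3⟩)
      · simp only at h1 h2
        subst h1 h2
        cases b
        · exact Or.inl ⟨i + t, by rw [g0, g0, add_assoc]⟩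
        · exact Or.inr (Or.inl ⟨j + t, by rw [g1, g1, add_assoc]⟩)
      · simp only at h1 h2 h3
        subst h2 h3
        refine Or.inr (Or.inr ?_)
        cases b <;> cases b'
        · exact absurd rfl h1
        · rw [g0, g1, add_zero, add_zero]
        · rw [g0, g1, add_zero, add_zero, Sym2.eq_swap]
        · exact absurd rfl h1
    rw [SimpleGraph.fromRel_adj] at h
    rcases h.2 with h | h
    · exact key x y h
    · rw [Sym2.eq_swap]
      exact key y x h

/-- transfer along isomorphisms on both sides -/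
theorem transfer {W : Type w} {V : Type v} {W' : Type*} {V' : Type*} {H : SimpleGraph W}
    {G : SimpleGraph V} {H' : SimpleGraph W'} {G' : SimpleGraph V'} {ι : Type u}
    (φ : H' ≃g H) (ψ : G ≃g G') (h : EdgeDisjointCopies H G ι) : EdgeDisjointCopies H' G' ι := by
  obtain ⟨f, h1, h2, h3⟩ := of_copies h
  refine to_copies (fun i x => ψ (f i (φ x))) ?_ ?_ ?_
  · intro i x y hxy
    exact φ.injective (h1 i (ψ.injective hxy))
  · intro i x y hxy
    exact ψ.map_rel_iff.mpr (h2 i _ _ (φ.map_rel_iff.mpr hxy))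
  · intro i j hij a b c d hab hcd heq
    refine h3 i j hij _ _ _ _ (φ.map_rel_iff.mpr hab) (φ.map_rel_iff.mpr hcd) ?_
    rw [Sym2.eq_iff] at heq ⊢
    rcases heq with ⟨e1, e2⟩ | ⟨e1, e2⟩
    · exact Or.inl ⟨ψ.injective e1, ψ.injective e2⟩
    · exact Or.inr ⟨ψ.injective e1, ψ.injective e2⟩

theorem copies_HH (n : ℕ) : EdgeDisjointCopies EdgeUbiq.HH EdgeUbiq.G (Fin n) := by
  obtain ⟨f, h1, h2⟩ := EdgeUbiq.copies n
  refine to_copies (fun i x => f i x) h1 (fun i x y h => (f i).map_rel h) ?_
  intro i j hij a b c d hab hcd heq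
  have heq' : s(f i a, f i b) = s(f j c, f j d) := heq
  rw [Sym2.eq_iff] at heq'
  rcases heq' with ⟨e1, e2⟩ | ⟨e1, e2⟩
  · exact h2 i j hij a b c d hab hcd (by rw [e1, e2])
  · exact h2 i j hij a b d c hab hcd.symm (by rw [e1, e2])

theorem not_copies_HH : ¬ EdgeDisjointCopies EdgeUbiq.HH EdgeUbiq.G ℕ := by
  intro h
  obtain ⟨f, h1, h2, h3⟩ := of_copies h
  refine EdgeUbiq.no_infinite_family
    ⟨fun i => ⟨f i, fun {x y} h => h2 i x y h⟩, h1, ?_⟩
  intro i j hij a b c d hab hcd heq
  have heq' : Sym2.mk (f i a, f i b) = Sym2.mk (f j c, f j d) := heq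
  have hp := EdgeUbiq.mk_inj heq'
  rw [Prod.mk.injEq] at hp
  refine h3 i j hij a b c d hab hcd ?_
  rw [hp.1, hp.2]

/-- a code for the vertices of the example -/
def code : EdgeUbiq.V → ℕ × Bool × Bool × ℕ × ℕ
  | .w b i => (0, b, false, i, 0)
  | .s b d i => (1, b, d, i, 0)
  | .p b i k => (2, b, false, i, k)
  | .z b => (3, b, false, 0, 0)
  | .y => (4, false, false, 0, 0)
  | .c n => (5, false, false, n, 0)
  | .r m k => (6, false, false, m, k)
  | .a m j => (7, false, false, m, j)

theorem code_inj : Function.Injective code := by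
  intro P Q h
  cases P <;> cases Q <;> simp_all [code]

instance : Countable EdgeUbiq.V := code_inj.countable

/-- The standard graph on `Bool × ℤ` is of the required form. -/
theorem joined_HH : TwoDoubleRaysJoined EdgeUbiq.HH := by
  refine ⟨fun n => (false, n), fun n => (true, n), 0, 0, ?_, ?_, ?_, ?_, ?_⟩
  · intro m n h
    exact (Prod.mk.inj h).2
  · intro m n h
    exact (Prod.mk.inj h).2
  · intro m n h
    exact absurd (Prod.mk.inj h).1 (by simp)
  · rintro ⟨b, t⟩
    cases b
    · exact Or.inl ⟨t, rfl⟩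
    · exact Or.inr ⟨t, rfl⟩
  · intro e
    induction e using Sym2.ind with
    | _ x y =>
      rw [SimpleGraph.mem_edgeSet]
      constructor
      · intro h
        have key : ∀ x y : Bool × ℤ,
            ((x.1 = y.1 ∧ x.2 + 1 = y.2) ∨ (x.1 ≠ y.1 ∧ x.2 = 0 ∧ y.2 = 0)) →
            (∃ n : ℤ, s(x, y) = s((false, n), (false, n + 1))) ∨
              (∃ n : ℤ, s(x, y) = s((true, n), (true, n + 1))) ∨
              s(x, y) = s((false, (0 : ℤ)), (true, (0 : ℤ))) := by
          rintro ⟨b, t⟩ ⟨b', t'⟩ (⟨h1, h2⟩ | ⟨h1, h2, h3⟩)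
          · simp only at h1 h2
            subst h1 h2
            cases b
            · exact Or.inl ⟨t, rfl⟩
            · exact Or.inr (Or.inl ⟨t, rfl⟩)
          · simp only at h1 h2 h3
            subst h2 h3
            refine Or.inr (Or.inr ?_)
            cases b <;> cases b'
            · exact absurd rfl h1
            · rfl
            · exact Sym2.eq_swap
            · exact absurd rfl h1
        rw [SimpleGraph.fromRel_adj] at h
        rcases h.2 with h | h
        · exact key x y h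
        · rw [Sym2.eq_swap]
          exact key y x h
      · rintro (⟨n, hn⟩ | ⟨n, hn⟩ | hn)
        · rw [Sym2.eq_iff] at hn
          rcases hn with ⟨h1, h2⟩ | ⟨h1, h2⟩
          · rw [h1, h2]
            exact EdgeUbiq.adj_succ false n
          · rw [h1, h2]
            exact (EdgeUbiq.adj_succ false n).symm
        · rw [Sym2.eq_iff] at hn
          rcases hn with ⟨h1, h2⟩ | ⟨h1, h2⟩
          · rw [h1, h2]
            exact EdgeUbiq.adj_succ true n
          · rw [h1, h2]
            exact (EdgeUbiq.adj_succ true n).symm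
        · rw [Sym2.eq_iff] at hn
          rcases hn with ⟨h1, h2⟩ | ⟨h1, h2⟩
          · rw [h1, h2]
            exact EdgeUbiq.adj_centre false true (by simp)
          · rw [h1, h2]
            exact (EdgeUbiq.adj_centre false true (by simp)).symm

/-- Let `H` be a graph obtained from two vertex-disjoint double rays by adding one edge between
them. There is a COUNTABLE graph `G` which contains `n` pairwise edge-disjoint copies of `H` for
every `n`, but no infinite family of pairwise edge-disjoint copies of `H`. -/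
theorem result {W : Type w} (H : SimpleGraph W) (hH : TwoDoubleRaysJoined H) :
    ∃ (V : Type v) (_ : Countable V) (G : SimpleGraph V),
      (∀ n : ℕ, EdgeDisjointCopies H G (Fin n)) ∧
        ∀ (ι : Type u) [Infinite ι], ¬ EdgeDisjointCopies H G ι := by
  obtain ⟨φ⟩ := iso_HH hH
  let ψ : EdgeUbiq.G ≃g (EdgeUbiq.G.comap (ULift.down : ULift.{v} EdgeUbiq.V → EdgeUbiq.V)) :=
    ⟨Equiv.ulift.symm, Iff.rfl⟩
  have h1 : ∀ n : ℕ, EdgeDisjointCopies H
      (EdgeUbiq.G.comap (ULift.down : ULift.{v} EdgeUbiq.V → EdgeUbiq.V)) (Fin n) :=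
    fun n => transfer φ.symm ψ (copies_HH n)
  have h2 : ¬ EdgeDisjointCopies H
      (EdgeUbiq.G.comap (ULift.down : ULift.{v} EdgeUbiq.V → EdgeUbiq.V)) ℕ :=
    fun h => not_copies_HH (transfer φ ψ.symm h)
  refine ⟨ULift.{v} EdgeUbiq.V, inferInstance, _, h1, ?_⟩
  intro ι _ h
  apply h2
  obtain ⟨K, hK, hdis⟩ := h
  refine ⟨fun n => K (Infinite.natEmbedding ι n), fun n => hK _, fun m n hmn => hdis _ _ ?_⟩
  intro h
  exact hmn ((Infinite.natEmbedding ι).injective h)

/-- No graph obtained from two vertex-disjoint double rays by adding one edge is edge-ubiquitous. -/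
theorem not_edgeUbiquitous {W : Type w} (H : SimpleGraph W) (hH : TwoDoubleRaysJoined H) :
    ¬ EdgeUbiquitous.{v} H := by
  intro h
  obtain ⟨V, _, G, h1, h2⟩ := result.{0, v, w} H hH
  exact h2 ℕ (h V G h1)

end Pool.Agent.Results.MP_b399ad_co.NotEdgeUbiquitous
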