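import Pool.Agent.Lib.MP_b399ad_co.Arb

/-!
# MP_b399ad_co: edge-ubiquity of two double rays joined by an edge, families of small overlap

`H` is the graph `F` of the problem. In an arbitrary graph, if for every `C` there are `N > C`
pairwise edge-disjoint copies of `F` such that each vertex lies in at most `N / C` of them or has degree at
most `N / C`, then there are infinitely many pairwise edge-disjoint copies of `F`. In particular `F` is
edge-ubiquitous in the class of graphs of bounded degree.
-/

namespace Pool.Agent.Results.MP_b399ad_co.SmallOverlap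

open B399

theorem result :
    ∀ H : SimpleGraph (Bool × ℤ),
      H = SimpleGraph.fromRel (fun x y : Bool × ℤ =>
        (x.1 = y.1 ∧ x.2 + 1 = y.2) ∨ (x.1 ≠ y.1 ∧ x.2 = 0 ∧ y.2 = 0)) →
    ∀ (V : Type) (G : SimpleGraph V),
      (∀ C : ℕ, ∃ (N : ℕ) (f : Fin N → (H →g G)), C < N ∧
        (∀ i, Function.Injective (f i)) ∧
        (∀ i j, i ≠ j → ∀ a b c d, H.Adj a b → H.Adj c d →
          s(f i a, f i b) ≠ s(f j c, f j d)) ∧
        ∀ x : V, C * {i | x ∈ Set.range (f i)}.ncard ≤ N ∨
          (C : ℕ∞) * (G.neighborSet x).encard ≤ (N : ℕ∞)) →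
      ∃ f : ℕ → (H →g G),
        (∀ i, Function.Injective (f i)) ∧
        ∀ i j, i ≠ j → ∀ a b c d, H.Adj a b → H.Adj c d →
          s(f i a, f i b) ≠ s(f j c, f j d) := by
  intro H hH V G h
  subst hH
  have hS : B399.SmallOverlap G := by
    intro C0
    obtain ⟨N, f, hN, hinj, hdis, hx⟩ := h (2 * C0 + 2)
    have hcopy : ∀ j, IsCopy G (f j) := fun j => ⟨fun a b hab => (f j).map_adj hab, hinj j⟩
    have hED : ∀ j j', j ≠ j' → ED (f j) (f j') := fun j j' hj a b c d hab hcd =>
      hdis j j' hj a b c d hab hcd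
    refine ⟨N, N / (2 * C0 + 2), fun j => f j, ?_, hcopy, hED, ?_⟩
    · have h1 : (2 * C0 + 2) * (N / (2 * C0 + 2)) ≤ N := Nat.mul_div_le N _
      have h2 : (2 * C0 + 2) * (N / (2 * C0 + 2)) =
          2 * (C0 * (N / (2 * C0 + 2))) + 2 * (N / (2 * C0 + 2)) := by ring
      have h3 : C0 * (N / (2 * C0 + 2) + 1) = C0 * (N / (2 * C0 + 2)) + C0 := by ring
      omega
    · intro x
      rw [Nat.le_div_iff_mul_le (by omega), mul_comm]
      rcases hx x with h1 | h1
      · exact h1
      · have hfin : (G.neighborSet x).Finite := by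
          by_contra hinf
          have h2 : (G.neighborSet x).encard = ⊤ := Set.encard_eq_top_iff.mpr hinf
          rw [h2, ENat.mul_top (by exact_mod_cast (by omega : 2 * C0 + 2 ≠ 0))] at h1
          exact absurd h1 (by simp)
        have hov : {j | x ∈ Set.range (f j)}.ncard ≤ (G.neighborSet x).ncard :=
          overlap_le_degree hcopy hED x hfin
        rw [← hfin.cast_ncard_eq] at h1
        have h2 : (2 * C0 + 2) * (G.neighborSet x).ncard ≤ N := by exact_mod_cast h1
        exact (Nat.mul_le_mul_left _ hov).trans h2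
  obtain ⟨g, hg1, hg2⟩ := B399.main_arb hS
  refine ⟨fun i => ⟨g i, fun {a b} hab => (hg1 i).adj a b hab⟩, fun i => (hg1 i).inj, ?_⟩
  intro i j hij a b c d hab hcd
  exact hg2 i j hij a b c d hab hcd

end Pool.Agent.Results.MP_b399ad_co.SmallOverlap
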